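import Pool.Agent.Y136.OutSum.Twists

set_option autoImplicit false

namespace Pool.Agent.Results.MP_94c136_al.DiscreteSum

open Equiv Pool.Agent.Results.MP_94c136_al.OutNotCompact

/-- There is an oligomorphic group `G` whose outer automorphism group contains the direct sum of
countably many copies of `ℤ/2` as a discrete subgroup: the image of an injective homomorphism `φ`
such that every point of `Out(G)` has an open neighbourhood containing at most one point of the
image.  In particular `Out(G)` is not compact, hence not profinite. -/
theorem result : ∃ G : Subgroup (Perm ℕ), IsOligomorphic G ∧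
    ∃ φ : Multiplicative (ℕ →₀ ZMod 2) →* OutAut G, Function.Injective φ ∧
      (∀ q : OutAut G, ∃ V : Set (OutAut G), IsOpen V ∧ q ∈ V ∧
        (Set.range φ ∩ V).Subsingleton) ∧
      ¬ CompactSpace (OutAut G) :=
  ⟨GG, Pool.Agent.Y136.OutSum.main⟩

end Pool.Agent.Results.MP_94c136_al.DiscreteSum
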